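import Pool.Agent.H7.GU.Stmts

/-!
# Cliques with `4 ≤ t < ω` vertices, residues `r < (ω - 1) / 2`: statements of the board `gv`

`b = p + 3 = ω - 1`, `u = w + 2 = t - 1 ≥ 3`, `Δ = (p + 3) a + r`, `Pr9 p w r`: `1 ≤ w ≤ p`, `2 ≤ r`,
`2 r ≤ p + 2` (so `p ≥ 2`, `Pr0 p w r`). THEOREM: for large `a` the Turán graph with `(p + 4) a + r`
vertices and `p + 4` parts has the most cliques with `w + 3` vertices per vertex. The board continues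
`gu8` (`Pool/Agent/H7/GU/Stmts.lean`, namespace `Pool.GU7`; same definitions `nd`, `Ph`, `df`, `G8`, `et`,
`Pr0`): the rows `LMB0`, `SIZ0`, `XGR0`, `GCO0`, `GLD0`, `CCK0`, `XSP0`, `MLB0`, `ZYG`, `PRF`, `SPL`, `PHB`
are used as they are, and every row `XXX9` is the row `XXX` or `XXX8`, `XXX0` of `gu8` with the changes
said in its docstring: copy the file and change the numbers. Row `XXX9` = `def XXX9Stmt : Prop`; file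
`Pool/Agent/H<k>/GV/XXX9.lean`, `import Pool.Agent.H7.GV.Stmts`, namespace `Pool.GV7`, `open
Pool.Agent.H23.KT Pool.Agent.H46.KW Pool.KQ Pool.GT7 Pool.GU7`. Notation: `c₁ = choose (p+2) (w+1)`.
-/

set_option autoImplicit false

open Finset

namespace Pool.GV7

open Pool.Agent.H23.KT Pool.Agent.H46.KW Pool.KQ Pool.GT7 Pool.GU7

/-- The conditions of the theorem. -/
structure Pr9 (p w r : ℕ) : Prop where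
  w1 : 1 ≤ w
  wp : w ≤ p
  r2 : 2 ≤ r
  rb : 2 * r ≤ p + 2

/-- The slope of the bound on codegrees. -/
noncomputable def m9 (p : ℕ) : ℝ := 2 / 3 * (p : ℝ) + 1 / 6

/-- (NET9) `NETStmt` (board `gt7`) with `Pr0` and the hypothesis `2 r / ((w+1)(b-r)) ≤ 1 - 1/b`
(`b = p + 3`). Needs MLB0, KUM, BRK, TRV, LMB0. PROOF. As there (`Pool/Agent/H86/GT/NET.lean`), more
exactly: `M = tot`, `c₂ = choose (p+1) w`, `choose (p+2) (w+1) = c₂ (p+2)/(w+1)`; twice the first two terms is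
`≤ M c₂ a^w [(1+K/a)(1+e)^b (2 r/((w+1)(b-r)) + b (b-1) e1/(w+1)) + K''/a]`; `b (b-1) e1/(w+1) ≤ b^2 e1 = 1/(16b)`,
`(1+e)^b ≤ 1 + 2be ≤ 1 + 1/(16b^2)`; so the bracket is `≤ (1 - 15/(16b))(1 + 1/(16b^2)) + K'''/a ≤ 1 - 1/(32b)`
for `a` large. KUM has the factor `1 - 1/(32b)`. -/
def NET9Stmt : Prop :=
  ∀ p w r : ℕ, Pr0 p w r → 2 * r * (p + 3) ≤ (p + 2) * ((w + 1) * (p + 3 - r)) →
    ∃ a₀ : ℕ, ∀ a ≥ a₀,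
    ∀ {V : Type} [DecidableEq V] (G : SimpleGraph V) (e : ℝ)
    (P : Fin (p + 3) → Finset V), 0 ≤ e → e ≤ e1 p / 2 → Par G P →
    (∀ i, (1 - e) * a ≤ ((P i).card : ℝ) ∧ ((P i).card : ℝ) ≤ (1 + e) * a) →
    (∀ i, ∀ u ∈ P i, ∀ k, k ≠ i → ((non G (P k) u).card : ℝ) ≤ e1 p * a) →
    Lm p w r a * ∑ L ∈ clq G (un P) (p + 3), mm G p r (un P) L +
      lam p w r a * ((∏ i, ((P i).card : ℝ)) - kc G (un P) (p + 3)) + kc G (un P) (w + 2) ≤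
      es (sz P) (w + 2)

/-- (GC9) Pointwise inequalities (`b = p + 3`). PROOF. (0) `Pr0`, and the hypothesis of NET9:
`w + 1 ≥ 2` and `r b ≤ (b-1)(b-r)` iff `2 r b ≤ b^2 - b + r`. (1) For `B ≥ r - 1`, `q = B + 1`: the right side
is `(b-1-B) [(b-r) q (q+b-3) - r (b-1)(b-2)]/q` (multiply out `b (b-1)(b-2)(q-r) - (b-r) q (q-1)(q-2) = (b-q) [(b-r)
(q^2 + (b-3) q) - r (b-1)(b-2)]`), and `[(b-r) q (q+b-3) - r (b-1)(b-2)] - q [(2b-r-2)(q-1) - 2(r-1)(b-2)] =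
(b-2)(q-r)(b-1-q) ≥ 0` for `r ≤ q ≤ b - 1`; `q = b`: both sides `0`. For `B ≤ r - 1`: `ww = 0`, and
`(b-r) B (B-1) ≤ (b-1-B)(2(r-1)(b-2) - (2b-r-2) B)`: equality at `B = r - 1`, the left side increases and the
right side decreases in `B`. (2) `choose B (w+1) = choose B 2 ...`: `choose B j/choose n j ≤ B(B-1)/(n(n-1))` for
`j ≥ 2`, `B ≤ n` (induction on `j`, `(B-j)/(n-j) ≤ 1`). (3) as GC8 (3), with `F r = r (c₁ - (u+1) choose (r-1) (u-1)) ≥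
1/2`: `u = 3`: `choose (b-1) 2 - 4 choose (r-1) 2 ≥ ((b-1)(b-2) - (b-3)(b-5))/2 = (5b-13)/2 ≥ 1`; `u ≥ 4`:
`(u+1) choose (r-1) (u-1) ≤ (u+1) 2^(-(u-1)) c₁ ≤ (5/8) c₁`; for `B ≤ r - 1` the same estimates. (4) `m`: the
function of `r` is increasing; at `r = (b-1)/2` it is `(2/3)(b-3)`: cross-multiply. -/
def GC9Stmt : Prop :=
  ∀ p w r : ℕ, Pr9 p w r →
    Pr0 p w r ∧ 2 * r * (p + 3) ≤ (p + 2) * ((w + 1) * (p + 3 - r)) ∧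
    (∀ B ≤ p + 2, ((p : ℝ) + 2 - B) *
      ((2 * (p : ℝ) + 4 - r) * B - 2 * ((r : ℝ) - 1) * ((p : ℝ) + 1)) ≤
      ((p : ℝ) + 3 - r) * (((p : ℝ) + 2) * ((p : ℝ) + 1) * ww p r B - B * ((B : ℝ) - 1))) ∧
    (∀ B ≤ p + 2, (B.choose (w + 1) : ℝ) * (((p : ℝ) + 2) * ((p : ℝ) + 1)) ≤
      B * ((B : ℝ) - 1) * (p + 2).choose (w + 1)) ∧
    (∀ B ≤ p + 1, ((w : ℝ) + 3) * B.choose (w + 1) + 1 / (4 * ((p : ℝ) + 3) ^ 2) ≤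
      (p + 2).choose (w + 1) * (1 + ((w : ℝ) + 2) * ww p r B)) ∧
    2 * ((r : ℝ) - 1) * ((p : ℝ) + 2) ≤ 2 / 3 * (p : ℝ) * (2 * (p : ℝ) + 4 - r)

/-- (NDM9) As `NDMStmt`. Needs GC9, PRF, CCK0 (1), GCO0. PROOF. `b = p + 3`, `μ = n_z/a`, `β = 2(r-1)(b-2)/(2b-r-2)`.
GC9 (1) summed, PRF (1)-(3): `(b-r) [(b-1)(b-2) T - ∑ B(B-1)] ≥ (2b-r-2) ∑ (b-1-B)(B-β) ≥ (2b-r-2) a^b
[(b-1-μ)(μ (b-2)/(b-1) - β) - K ε]` (as in NDM). `b - 1 - μ ≥ e1/8`; GC9 (last): `β (b-1)/(b-2) ≤ (2/3) p`, so by hypothesis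
(`μ ≥ m9 - 1/12 = (2/3) p + 1/12`) `μ (b-2)/(b-1) - β ≥ (1/12)(b-2)/(b-1) ≥ 1/16` (`b ≥ 5`); `(2b-r-2)/(b-r) ≥ 1`. So
for `ε` small `(b-1)(b-2) T - ∑ B(B-1) ≥ (e1/256) a^b`. PRF (6), GC9 (2): `κ a^(b-w-1) ≤ ∑ choose B (w+1) + ε a^b ≤
(c₁/((b-1)(b-2))) ∑ B(B-1) + ε a^b ≤ c₁ T - c₁ e1/(512 b^2) a^b ≤ (1 - et) c₁ T` (`T ≤ N ≤ 2 a^b`, `et ≤ e1/(256 b^3
(w+2) c₁) ≤ e1/(3840 b^2)` as `b ≥ 5`, `w + 2 ≥ 3`). -/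
def NDM9Stmt : Prop :=
  ∀ p w r : ℕ, Pr9 p w r → ∃ e₀ : ℝ, 0 < e₀ ∧ ∀ C : ℝ, ∃ a₀ : ℕ, ∀ a ≥ a₀,
    ∀ {V : Type} [DecidableEq V] (G : SimpleGraph V) (e : ℝ) (W : Finset V)
    (P : Fin (p + 3) → Finset V) (U : Finset V), Str G p a e C W P U → 0 ≤ e → e ≤ e₀ →
    CB G W (p + 3) → ∀ z ∈ U,
    (m9 p - 1 / 12) * a ≤ ((nb G (un P) z).card : ℝ) →
    nd G p w r a (un P) z = 0

/-- (NDB9) As `NDBStmt` with `m9` (`m9/(p+2) ≤ 2/3`, so `#{B ≤ p+1} ≥ N - (2/3 + ε) a^b ≥ a^b/4`).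
Needs GC9, PRF, CCK0 (1), GCO0. -/
def NDB9Stmt : Prop :=
  ∀ p w r : ℕ, Pr9 p w r → ∃ e₀ : ℝ, 0 < e₀ ∧ ∀ C : ℝ, ∃ a₀ : ℕ, ∀ a ≥ a₀,
    ∀ {V : Type} [DecidableEq V] (G : SimpleGraph V) (e : ℝ) (W : Finset V)
    (P : Fin (p + 3) → Finset V) (U : Finset V), Str G p a e C W P U → 0 ≤ e → e ≤ e₀ →
    CB G W (p + 3) → ∀ z ∈ U, ((nb G (un P) z).card : ℝ) ≤ m9 p * a →
    0 < nd G p w r a (un P) z →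
    ((w : ℝ) + 2) * nd G p w r a (un P) z + kc G (nb G (un P) z) (w + 1) ≤
      ((p + 2).choose (w + 1) - 1 / (32 * ((p : ℝ) + 3) ^ 2)) * (a : ℝ) ^ (w + 1)

/-- (NUB9) As `NUBStmt` with `1/3` and `2/3` in place of `1/2`, `w ≥ 1`. `b = p + 3`, `j = w + 1 ≥ 2`,
`ã = a + r/b = Δ/b`, `x = Δ - n`. PROOF. (1) `3 n ≤ Δ`: `x ≥ (2/3) b ã`, `x/b ≥ (2/3) ã`: `x (ã^j - (x/b)^j) = x (n/b)
∑_(i<j) ã^(j-1-i) (x/b)^i ≥ (2/3) n ã^j ∑_(i<j) (2/3)^i = 2 n ã^j (1 - (2/3)^j) ≥ j (2/3)^j n ã^j`, since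
`(j+2)(2/3)^j ≤ 2` for `j ≥ 2`. (2) `3 n ≥ Δ`: `x/b ≤ (2/3) ã`, and `(2/3)^j (1 + K/a) + g^j < 1` as `g < 2/3`,
`2 (2/3)^j ≤ 8/9`. -/
def NUB9Stmt : Prop :=
  ∀ p w r : ℕ, 1 ≤ w → ∃ K : ℝ, 0 < K ∧ ∃ a₀ : ℕ, ∀ a ≥ a₀, ∀ n : ℕ, n ≤ (p + 3) * a + r →
    ((3 * n ≤ (p + 3) * a + r →
      (n : ℝ) * ((w : ℝ) + 1) * (2 * (a : ℝ) / 3) ^ (w + 1) ≤
        ((((p + 3) * a + r : ℕ) : ℝ) - n) * ((a : ℝ) ^ (w + 1) -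
          (((((p + 3) * a + r : ℕ) : ℝ) - n) / ((p : ℝ) + 3)) ^ (w + 1)) + K * (a : ℝ) ^ (w + 1)) ∧
    ((p + 3) * a + r ≤ 3 * n →
      ((2 / 3 - 1 / (12 * ((p : ℝ) + 2))) * a) ^ (w + 1) ≤
        (a : ℝ) ^ (w + 1) -
          (((((p + 3) * a + r : ℕ) : ℝ) - n) / ((p : ℝ) + 3)) ^ (w + 1)))

/-- (BDA9) As `BDAStmt` with `m9`, `g = 2/3 - 1/(12(p+2))`, NUB9 and the cases `3 n ≤ D`, `3 n > D`.
Needs SPL, NUB9, ZYG, TTR (3). PROOF. `κ v ≤ c₁ (m9 a/(p+2))^(w+1) ≤ c₁ (2a/3)^(w+1)`; for `y ∈ Y`: `card (nb G W y) ≤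
(m9 + 1 + 2 b e1) a + r ≤ (p+2) g a` for `a` large: `(p+2) g - (m9 + 1) = 1/12`, `2 b e1 = 1/(8b^2) ≤ 1/200`. -/
def BDA9Stmt : Prop :=
  ∀ p w r : ℕ, Pr9 p w r → ∃ K : ℝ, 0 < K ∧ ∀ δ C : ℝ, 0 < δ → ∃ a₀ : ℕ, ∀ a ≥ a₀,
    ∀ {V : Type} [Fintype V] [DecidableEq V] (G : SimpleGraph V), G8 G p r a →
    ∀ (z : V) (A : Finset V), A ⊆ nb G univ z →
    (∀ v ∈ A, ∃ (e : ℝ) (P : Fin (p + 3) → Finset V) (U : Finset V),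
      Str G p a e C (nb G univ v) P U ∧ 0 ≤ e ∧ e ≤ e1 p ∧
      ((Pool.KR.co G v z).card : ℝ) ≤ m9 p * a) →
    ∑ v ∈ A, ((p + 2).choose (w + 1) * (a : ℝ) ^ (w + 1) -
      (kc G (Pool.KR.co G v z) (w + 1) : ℝ)) ≤
      ((w : ℝ) + 2) * df G p w r a (nb G univ z) + K * (a : ℝ) ^ (w + 1) +
        δ * A.card * (a : ℝ) ^ (w + 1)

/-- (BUD9) As `BUDStmt`. Needs NDM9, NDB9, BDA9. (`n_z < (m9 - 1/12) a` gives `card (co G v z) ≤ m9 a`.) -/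
def BUD9Stmt : Prop :=
  ∀ p w r : ℕ, Pr9 p w r → ∀ C₀ : ℝ, 0 < C₀ → ∃ C₂ : ℝ, 0 < C₂ ∧ ∃ e₀ : ℝ, 0 < e₀ ∧ e₀ ≤ e1 p ∧
    ∀ C : ℝ, ∃ a₀ : ℕ, ∀ a ≥ a₀,
    ∀ {V : Type} [Fintype V] [DecidableEq V] (G : SimpleGraph V), G8 G p r a →
    ∀ (e : ℝ), 0 ≤ e → e ≤ e₀ → ∀ (z : V) (A : Finset V)
    (P : V → Fin (p + 3) → Finset V) (U : V → Finset V), A ⊆ nb G univ z →
    (∀ v ∈ A, Str G p a e C (nb G univ v) (P v) (U v) ∧ z ∈ U v) →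
    C₂ * (a : ℝ) ^ (w + 1) ≤ df G p w r a (nb G univ z) →
    ∑ v ∈ A, nd G p w r a (un (P v)) z ≤
      df G p w r a (nb G univ z) - C₀ * (a : ℝ) ^ (w + 1)

/-- (GGP9) As `GGPStmt` (with `b ≥ 5`: `2(b-1)(1 - 2 e1) - b > 1`). Needs STG. -/
def GGP9Stmt : Prop :=
  ∀ p w r : ℕ, Pr9 p w r → ∃ e₀ : ℝ, 0 < e₀ ∧ e₀ ≤ e1 p ∧ ∀ (C : ℝ) (C₁ : ℕ), ∃ a₀ : ℕ,
    ∀ a ≥ a₀, ∀ {V : Type} [Fintype V] [DecidableEq V] (G : SimpleGraph V), G8 G p r a →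
    ∀ (e : ℝ), 0 ≤ e → e ≤ e₀ → ∀ (v z : V) (P P' : Fin (p + 3) → Finset V) (U U' : Finset V),
    Str G p a e C (nb G univ v) P U → Str G p a e C (nb G univ z) P' U' → z ∈ U →
    a ^ (p + 4) ≤ (a + C₁) * kc G (nb G univ z) (p + 3) →
    Pool.KR.co G v z ⊆ U ∪ U' ∧ v ∈ U'

/-- (PAY9) As `PAYStmt`, only the case `w ≥ 1`. -/
def PAY9Stmt : Prop :=
  ∀ p w r : ℕ, Pr9 p w r → ∀ C : ℝ, 0 < C → ∃ a₀ : ℕ, ∀ a ≥ a₀,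
    ∀ {V : Type} [Fintype V] [DecidableEq V] (G : SimpleGraph V) (Gd : Finset V)
    (P : V → Fin (p + 3) → Finset V) (U : V → Finset V),
    (∀ v ∈ Gd, un (P v) ⊆ nb G univ v ∧ ((U v).card : ℝ) ≤ C) →
    (∀ v ∈ Gd, ∀ z ∈ U v, 0 ≤ TZ G p r (un (P v)) z) →
    (∀ v ∈ Gd, ∀ z ∈ Gd, z ∈ U v → Pool.KR.co G v z ⊆ U v ∪ U z ∧ v ∈ U z) →
    ∑ v ∈ Gd, ∑ z ∈ (U v).filter (fun z => z ∈ Gd), nd G p w r a (un (P v)) z ≤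
      ∑ v ∈ Gd, (2 * ((p + 1).choose (w + 1) : ℝ) - 1) * ((U v).card.choose 2 : ℝ) *
        (a : ℝ) ^ w

/-- (KU9) As `KU0Stmt` (`w ≥ 1`, `(r-1)/(p+1) ≤ 1/2`). Needs DBL, GCO0, CCK0 (1), TRV. -/
def KU9Stmt : Prop :=
  ∀ {V : Type} [DecidableEq V] (G : SimpleGraph V) (p w r a : ℕ) (e C : ℝ) (W : Finset V)
    (P : Fin (p + 3) → Finset V) (U : Finset V), Pr9 p w r → Str G p a e C W P U → 0 ≤ e →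
    e ≤ e1 p / 2 → CB G W (p + 3) → ∀ z ∈ U,
    (kc G (nb G (un P) z) w : ℝ) * (a : ℝ) ^ (p + 3) ≤
      (a : ℝ) ^ w * (((p + 1).choose w + 1 / 4) * (a : ℝ) ^ (p + 3) +
        2 ^ (p + 4) * ((p : ℝ) + 3) * TZ G p r (un P) z)

/-- (LIP9) As `LIPStmt`. Needs CCK0, KU9, DKU, DML, XSP0, NET9, SIZ0, XGR0, LMB0, GCO0, GC9 (Pr0 and the
hypothesis of NET9). -/
def LIP9Stmt : Prop :=
  ∀ p w r : ℕ, Pr9 p w r → ∃ e₀ : ℝ, 0 < e₀ ∧ ∀ e : ℝ, 0 < e → e ≤ e₀ → ∀ C : ℝ, 0 < C →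
    ∃ a₀ : ℕ, ∀ a ≥ a₀, ∀ {V : Type} [DecidableEq V] (G : SimpleGraph V) (W : Finset V)
    (P : Fin (p + 3) → Finset V) (U : Finset V), Str G p a e C W P U → CB G W (p + 3) →
    W.card ≤ (p + 3) * a + r →
    Ph G p w r a W + (2 * ((p + 1).choose (w + 1) : ℝ) - 1) * (U.card.choose 2 : ℝ) *
      (a : ℝ) ^ w ≤ df G p w r a W + ∑ z ∈ U, nd G p w r a (un P) z

/-- (SUM9) As `SUM8Stmt`. Needs PHB, BUD9, LIP9, GGP9, PAY9, STC, MMC, CCK0, TTR (3). -/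
def SUM9Stmt : Prop :=
  ∀ p w r : ℕ, Pr9 p w r → ∃ a₀ : ℕ, ∀ a ≥ a₀, ∀ {V : Type} [Fintype V] [DecidableEq V]
    (G : SimpleGraph V), G8 G p r a →
    ∑ v, Ph G p w r a (nb G univ v) ≤ ∑ v, df G p w r a (nb G univ v)

/-- (FN9) The theorem. Needs SUM9, GLD0, TCT. -/
def FN9Stmt : Prop :=
  ∀ p w r : ℕ, Pr9 p w r → ∃ a₀ : ℕ, ∀ a ≥ a₀, ∀ (m : ℕ) (H : SimpleGraph (Fin m)),
    (∀ v, (H.neighborSet v).ncard ≤ (p + 3) * a + r) → H.CliqueFree (p + 5) →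
      {s : Finset (Fin m) | H.IsNClique (w + 3) s}.ncard * ((p + 4) * a + r) ≤
        {s : Finset (Fin ((p + 4) * a + r)) |
          (SimpleGraph.turanGraph ((p + 4) * a + r) (p + 4)).IsNClique (w + 3) s}.ncard * m

end Pool.GV7
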